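import Pool.Agent.TH299.FB.Fin

/-!
# A `C¹` free boundary that is not `C^{1,α}`

Negative answer to Q1 (a), (b) and (c).  Near the origin `D = {|x₂| < (2/π) x₁ log (κ/x₁)}` with
`κ = (π/2) e⁴`, and `u = x₁³/6 - κ³/(9π) Re (e^{3v} (3v+2))`, where `v = v(z)` is the branch of the
inverse of `z = -e⁴ v eᵛ` (a Lambert function) with `Re v ≤ -2`.
-/

set_option autoImplicit false

open MeasureTheory Set Metric
open scoped Laplacian ContDiff

namespace Pool.Agent.Results.MP_056161_an.LogarithmicBoundary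

/-- `D` is a Lipschitz domain of the plane `ℂ = ℝ²`: open, connected, nonempty, and near each
boundary point, in coordinates obtained by a rotation `z ↦ c z`, `|c| = 1`, it is the region above
the graph of a Lipschitz function. -/
def IsLipschitzDomain (D : Set ℂ) : Prop :=
  IsOpen D ∧ IsConnected D ∧ ∀ p ∈ frontier D, ∃ ρ > 0, ∃ c : ℂ, ‖c‖ = 1 ∧
    ∃ (φ : ℝ → ℝ) (L : NNReal), LipschitzWith L φ ∧
      ∀ z ∈ ball p ρ, (z ∈ D ↔ φ (c * z).re < (c * z).im)

/-- `u` is of class `C^{1,1}_loc` in the open set `U`: differentiable with a locally Lipschitz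
derivative. -/
def IsC11Loc (U : Set ℂ) (u : ℂ → ℝ) : Prop :=
  DifferentiableOn ℝ u U ∧ ∀ x ∈ U, ∃ r > 0, ∃ L : NNReal, ball x r ⊆ U ∧
    LipschitzOnWith L (fderiv ℝ u) (ball x r)

/-- The setting of the problem: `D` is a Lipschitz domain with `0 ∈ ∂D`, `u ∈ C^{1,1}_loc(B₂)`,
`Δu = x₁ χ_D` almost everywhere in `B₂`, and `u = 0` in `B₂` outside the closure of `D`. -/
structure IsSolution (D : Set ℂ) (u : ℂ → ℝ) : Prop where
  domain : IsLipschitzDomain D
  zero_mem : (0 : ℂ) ∈ frontier D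
  regular : IsC11Loc (ball 0 2) u
  equation : ∀ᵐ z ∂(volume.restrict (ball (0 : ℂ) 2)), (Δ u) z = D.indicator (fun z => z.re) z
  vanish : ∀ z ∈ ball (0 : ℂ) 2, z ∉ closure D → u z = 0

/-- `∂D` is of class `Cls` near `0`: there are `ρ > 0` and a rotation of coordinates `z ↦ c z` in
which `∂D ∩ B_ρ` is the graph of a function of one variable of class `Cls` on `(-ρ, ρ)`. -/
def BoundaryOfClass (Cls : (ℝ → ℝ) → Set ℝ → Prop) (D : Set ℂ) : Prop :=
  ∃ ρ > 0, ∃ c : ℂ, ‖c‖ = 1 ∧ ∃ φ : ℝ → ℝ, Cls φ (Ioo (-ρ) ρ) ∧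
    ∀ z ∈ ball (0 : ℂ) ρ, (z ∈ frontier D ↔ (c * z).im = φ (c * z).re)

/-- Class `C¹` on `I`. -/
def IsC1 (φ : ℝ → ℝ) (I : Set ℝ) : Prop := ContDiffOn ℝ 1 φ I

/-- Class `C^{1,α}` on `I`. -/
def IsC1Holder (α : ℝ) (φ : ℝ → ℝ) (I : Set ℝ) : Prop :=
  DifferentiableOn ℝ φ I ∧ ∃ C : ℝ, ∀ s ∈ I, ∀ t ∈ I, |deriv φ s - deriv φ t| ≤ C * |s - t| ^ α

/-- Class `C^∞` on `I`. -/
def IsSmooth (φ : ℝ → ℝ) (I : Set ℝ) : Prop := ContDiffOn ℝ ∞ φ I

/-- Real-analytic on `I`. -/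
def IsAnalytic (φ : ℝ → ℝ) (I : Set ℝ) : Prop := AnalyticOnNhd ℝ φ I

open Pool.Agent.TH299.FB in
lemma lipschitz_domain : IsLipschitzDomain Pool.Agent.TH299.FB.D := by
  refine ⟨isOpen_D, isConnected_D, fun p _ => ⟨1, one_pos, Complex.I, by simp, g, 2, g_lipschitz,
    fun z _ => ?_⟩⟩
  rw [Complex.I_mul_re, Complex.I_mul_im, g_even]
  rfl

open Pool.Agent.TH299.FB in
lemma no_taylor {ρ : ℝ} (hρ : 0 < ρ) {c : ℂ} (hc : ‖c‖ = 1) {φ : ℝ → ℝ}
    (hφ : ∀ z ∈ ball (0 : ℂ) ρ, z ∈ frontier Pool.Agent.TH299.FB.D ↔ (c * z).im = φ (c * z).re)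
    {C α δ : ℝ} (hα : 0 < α) (hδ : 0 < δ)
    (hd : ∀ s : ℝ, |s| < δ → DifferentiableAt ℝ φ s)
    (hb : ∀ s : ℝ, |s| < δ → |deriv φ s - deriv φ 0| ≤ C * |s| ^ α) : False := by
  have h0 : φ 0 = 0 := by
    have := (hφ 0 (mem_ball_self hρ)).1 zero_mem_frontier
    simpa using this.symm
  refine core hρ hc hφ (m := deriv φ 0) (C := |C|) hα hδ fun s hs => ?_
  have hsub : ∀ t ∈ segment ℝ 0 s, |t| ≤ |s| := by
    intro t ht
    have := dist_add_dist_of_mem_segment ht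
    rw [Real.dist_eq, Real.dist_eq, Real.dist_eq, zero_sub, zero_sub, abs_neg, abs_neg] at this
    have := abs_nonneg (t - s)
    linarith
  have h1 := (convex_segment (0 : ℝ) s).norm_image_sub_le_of_norm_hasDerivWithin_le
    (f := fun t => φ t - deriv φ 0 * t) (f' := fun t => deriv φ t - deriv φ 0)
    (C := |C| * |s| ^ α) (x := 0) (y := s)
    (fun t ht => by
      have h2 := (hd t (lt_of_le_of_lt (hsub t ht) hs)).hasDerivAt
      have h3 := h2.sub ((hasDerivAt_id t).const_mul (deriv φ 0))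
      simp only [mul_one] at h3
      exact h3.hasDerivWithinAt)
    (fun t ht => by
      rw [Real.norm_eq_abs]
      refine (hb t (lt_of_le_of_lt (hsub t ht) hs)).trans ?_
      have h5 : 0 ≤ |t| ^ α := Real.rpow_nonneg (abs_nonneg _) _
      calc C * |t| ^ α ≤ |C| * |t| ^ α := mul_le_mul_of_nonneg_right (le_abs_self C) h5
        _ ≤ |C| * |s| ^ α := mul_le_mul_of_nonneg_left
            (Real.rpow_le_rpow (abs_nonneg _) (hsub t ht) hα.le) (abs_nonneg _))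
    (left_mem_segment ℝ 0 s) (right_mem_segment ℝ 0 s)
  simp only [h0, mul_zero, sub_zero, Real.norm_eq_abs] at h1
  refine h1.trans (le_of_eq ?_)
  by_cases hs0 : s = 0
  · rw [hs0, abs_zero, Real.zero_rpow (by linarith : 1 + α ≠ 0), mul_zero, mul_zero]
  · rw [Real.rpow_add (abs_pos.2 hs0), Real.rpow_one]; ring

lemma not_holder (α : ℝ) (hα : 0 < α) :
    ¬ BoundaryOfClass (IsC1Holder α) Pool.Agent.TH299.FB.D := by
  rintro ⟨ρ, hρ, c, hc, φ, ⟨hd, C, hC⟩, hφ⟩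
  refine no_taylor hρ hc hφ (C := C) hα hρ (fun s hs => ?_) fun s hs => ?_
  · have := abs_lt.1 hs
    exact (hd s this).differentiableAt (Ioo_mem_nhds this.1 this.2)
  · have := hC s (abs_lt.1 hs) 0 ⟨by linarith, hρ⟩
    rwa [sub_zero] at this

lemma not_c2 {ρ : ℝ} (hρ : 0 < ρ) {c : ℂ} (hc : ‖c‖ = 1) {φ : ℝ → ℝ}
    (hφ : ∀ z ∈ ball (0 : ℂ) ρ, z ∈ frontier Pool.Agent.TH299.FB.D ↔ (c * z).im = φ (c * z).re)
    (h2 : ContDiffAt ℝ 2 φ 0) : False := by
  have h3 : DifferentiableAt ℝ (fun x => fderiv ℝ φ x 1) 0 :=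
    ((h2.fderiv_right (m := 1) (by norm_num)).differentiableAt (by norm_num)).clm_apply
      (differentiableAt_const _)
  have h4 : DifferentiableAt ℝ (deriv φ) 0 := h3
  obtain ⟨C, hC⟩ := h4.isBigO_sub.bound
  have h5 : ∀ᶠ s in nhds (0 : ℝ), DifferentiableAt ℝ φ s :=
    (h2.eventually (by norm_num)).mono fun s hs => hs.differentiableAt (by norm_num)
  obtain ⟨δ, hδ, hball⟩ := Metric.eventually_nhds_iff.1 (hC.and h5)
  refine no_taylor hρ hc hφ (C := C) (α := 1) one_pos hδ (fun s hs => ?_) fun s hs => ?_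
  · exact (hball (by simpa [Real.dist_eq] using hs)).2
  · have := (hball (y := s) (by simpa [Real.dist_eq] using hs)).1
    rw [Real.rpow_one]
    simpa [Real.norm_eq_abs] using this

open Pool.Agent.TH299.FB in
/-- **Q1 (a), (b), (c) are all false.** There are a Lipschitz domain `D` with `0 ∈ ∂D` and a
function `u ∈ C^{1,1}_loc(B₂)` with `Δu = x₁ χ_D` in `B₂` and `u = 0` in `B₂` outside the closure of
`D` such that `∂D` is of class `C¹` near `0`, but not of class `C^{1,α}` near `0` for any `α > 0`,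
and neither smooth nor real-analytic near `0`. -/
theorem result : ∃ (D : Set ℂ) (u : ℂ → ℝ), IsSolution D u ∧ BoundaryOfClass IsC1 D ∧
    (∀ α : ℝ, 0 < α → ¬ BoundaryOfClass (IsC1Holder α) D) ∧
    ¬ BoundaryOfClass IsSmooth D ∧ ¬ BoundaryOfClass IsAnalytic D := by
  refine ⟨Pool.Agent.TH299.FB.D, u, ⟨lipschitz_domain, zero_mem_frontier, ⟨?_, ?_⟩, ?_, ?_⟩, ?_,
    not_holder, ?_, ?_⟩
  · exact fun z hz => (u_diff z hz).differentiableAt.differentiableWithinAt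
  · intro x hx
    obtain ⟨r, hr, hsub⟩ := Metric.isOpen_iff.1 isOpen_ball x hx
    exact ⟨r, hr, 5, hsub, fderiv_u_lip.mono hsub⟩
  · rw [ae_restrict_iff' measurableSet_ball]
    have h1 : ∀ᵐ z ∂(volume : Measure ℂ), z ∉ frontier Pool.Agent.TH299.FB.D := by
      rw [ae_iff]
      simpa using frontier_null
    filter_upwards [h1] with z hz hz2
    by_cases hD : z ∈ Pool.Agent.TH299.FB.D
    · rw [indicator_of_mem hD]
      exact lap_in hz2 hD
    · rw [indicator_of_notMem hD]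
      apply lap_out
      intro hcl
      apply hz
      rw [frontier, isOpen_D.interior_eq]
      exact ⟨hcl, hD⟩
  · intro z _ hz
    exact indicator_of_notMem (fun h => hz (subset_closure h)) _
  · refine ⟨3, by norm_num, Complex.I, by simp, g, g_contDiffOn, fun z _ => ?_⟩
    rw [frontier_D, Complex.I_mul_re, Complex.I_mul_im, g_even]
    rfl
  · rintro ⟨ρ, hρ, c, hc, φ, hs, hφ⟩
    have h1 : ContDiffAt ℝ ∞ φ 0 := hs.contDiffAt (Ioo_mem_nhds (by linarith) hρ)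
    exact not_c2 hρ hc hφ (h1.of_le (WithTop.coe_le_coe.2 (le_top : (2 : ℕ∞) ≤ ⊤)))
  · rintro ⟨ρ, hρ, c, hc, φ, hs, hφ⟩
    have h1 : AnalyticAt ℝ φ 0 := hs 0 ⟨by linarith, hρ⟩
    exact not_c2 hρ hc hφ h1.contDiffAt

end Pool.Agent.Results.MP_056161_an.LogarithmicBoundary
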